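import Pool.Agent.W907.SM.Stmts2

/-! Project SM/SB, part ABV. -/

namespace Pool.Agent.W816.SM

open Pool.Agent.W907.SG Pool.Agent.W907.SM

section
variable {V C R : Type} [Fintype V] [LinearOrder V] [DecidableEq C] [CommRing R]

theorem ex_of_zero {G : SimpleGraph V} {col : V → C} {D : Set C} {τ : V → R} {A : Set V} {i : ℕ}
    (h : ∀ z : Finset V → (C → Bool) → R, IsLC G col D τ A i z → bdd z = 0 → z = 0) :
    EX G col D τ A i := by
  intro z hz hb
  refine ⟨0, ⟨fun _ _ => rfl, fun T t _ _ ε => ?_⟩, ?_⟩
  · simp
  · rw [h z hz hb]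
    funext T
    simp [bdd]

theorem zero_of_card {G : SimpleGraph V} {col : V → C} {D : Set C} {τ : V → R} {A : Set V} {i b : ℕ}
    (h : ∀ T : Finset V, G.IsClique (T : Set V) → (T : Set V) ⊆ A → T.card ≤ b) (hi : b < i)
    (z : Finset V → (C → Bool) → R) (hz : IsLC G col D τ A i z) : z = 0 := by
  funext T
  refine hz.supp T ?_
  rintro ⟨h1, h2, h3⟩
  have := h T h1 h2
  omega

end

theorem card_EvF (n s a : ℕ) : (EvF n (2 * s) (2 * a + 1)).card + s ≤ a + 1 ∨
    (EvF n (2 * s) (2 * a + 1)).card = 0 := by
  have h1 : (EvF n (2 * s) (2 * a + 1)).card ≤ (Finset.Ico s (a + 1)).card := by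
    refine Finset.card_le_card_of_injOn (fun c => c.val / 2) ?_ ?_
    · intro c hc
      have hc' := (Finset.mem_filter.1 (Finset.mem_coe.1 hc)).2
      rw [Finset.coe_Ico, Set.mem_Ico]
      obtain ⟨h1, h2, h3⟩ := hc'
      change s ≤ c.val / 2 ∧ c.val / 2 < a + 1
      omega
    · intro c hc c' hc' hcc
      have h1 := (Finset.mem_filter.1 (Finset.mem_coe.1 hc)).2.1
      have h2 := (Finset.mem_filter.1 (Finset.mem_coe.1 hc')).2.1
      obtain ⟨k, hk⟩ := h1
      obtain ⟨k', hk'⟩ := h2
      apply Fin.ext
      have h3 : c.val / 2 = c'.val / 2 := hcc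
      omega
  rw [Nat.card_Ico] at h1
  omega

section
variable {n : ℕ} {V K : Type} [Fintype V] [LinearOrder V] [Field K] [CharP K 2] {r : V → V → Prop}
  {rk : V → Fin n} {τ : V → K}

theorem adj_iff {u v : V} : (W907.SM.cmp r).Adj u v ↔ u ≠ v ∧ (r u v ∨ r v u) := by
  unfold W907.SM.cmp
  rw [SimpleGraph.fromRel_adj]

omit [Fintype V] [LinearOrder V] in
theorem adj_rk (hrk : ∀ x y, r x y → rk x < rk y) {u w : V} (h : (W907.SM.cmp r).Adj u w) : rk u ≠ rk w := by
  have h1 : u ≠ w ∧ (r u w ∨ r w u) := by
    unfold W907.SM.cmp at h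
    rwa [SimpleGraph.fromRel_adj] at h
  rcases h1.2 with h2 | h2
  · exact ne_of_lt (hrk _ _ h2)
  · exact (ne_of_lt (hrk _ _ h2)).symm

theorem clique_card (hrk : ∀ x y, r x y → rk x < rk y) {D : Finset (Fin n)} {Y : Set V}
    (hY : ∀ v ∈ Y, rk v ∈ D) (T : Finset V) (hT : (W907.SM.cmp r).IsClique (T : Set V)) (hTY : (T : Set V) ⊆ Y) :
    T.card ≤ D.card := by
  refine Finset.card_le_card_of_injOn rk (fun v hv => hY v (hTY hv)) ?_
  intro u hu v hv huv
  by_contra hne
  exact adj_rk hrk (hT hu hv hne) huv

theorem top0 (hCONVB : M_CONVB) (hrk : ∀ x y, r x y → rk x < rk y) {N : Set V} {D : Finset (Fin n)}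
    (hz : ∀ z, TZ r rk τ N D ∅ z → z = 0) {Y : Set V} (hYN : Y ⊆ N) (hY : ∀ v ∈ Y, rk v ∈ D)
    {i : ℕ} (hi : D.card ≤ i)
    (z : Finset V → (Fin n → Bool) → K) (hLC : IsLC (W907.SM.cmp r) rk Set.univ τ Y i z) (hb : bdd z = 0) : z = 0 := by
  rcases eq_or_lt_of_le hi with h | h
  · refine hCONVB n V K r rk τ N D hrk hz z ⟨fun T hT => ?_, fun T t ht _ ε => ?_⟩ hb
    · refine hLC.supp T ?_
      rintro ⟨h1, h2, h3⟩
      exact hT ⟨h1, fun v hv => ⟨hYN (h2 hv), hY v (h2 hv)⟩, h3.trans h.symm⟩
    · exact hLC.line T t ht (Set.mem_univ _) ε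
  · exact zero_of_card (clique_card hrk hY) h z hLC

theorem main (hJT : B_JT) (hLADD : M_LADD) (hCONVB : M_CONVB) (htr : ∀ x y z, r x y → r y z → r x z)
    (hrk : ∀ x y, r x y → rk x < rk y)
    (hTZ : ∀ x y : Option V, (∀ a ∈ x, ∀ b ∈ y, r a b) → Even (lo rk x) → Odd (hi rk y) →
      ∀ z, TZ r rk τ (Iv r x y) (EvF n (lo rk x) (hi rk y)) ∅ z → z = 0) (a : ℕ) :
    ∀ y : Option V, hi rk y = 2 * a + 1 → ∀ A : Set V, A ⊆ Iv r none y → ∀ i, a + 1 ≤ i →
      EX (W907.SM.cmp r) rk Set.univ τ A i := by
  classical
  induction a using Nat.strong_induction_on with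
  | _ a ih =>
    intro y hy A hA
    have hcol : ∀ u w, (W907.SM.cmp r).Adj u w → rk u ≠ rk w := fun u w h => adj_rk hrk h
    -- ranks in `A`
    have hlt : ∀ v ∈ A, (rk v : ℕ) < 2 * a + 1 := by
      intro v hv
      have h1 := (hA hv).2
      cases y with
      | none =>
        rw [← hy]
        exact (rk v).isLt
      | some b =>
        rw [← hy]
        exact hrk v b (h1 b rfl)
    -- the even part
    have h0 : ∀ i, a + 1 ≤ i → EX (W907.SM.cmp r) rk Set.univ τ {v | v ∈ A ∧ Even (rk v : ℕ)} i := by
      intro i hi'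
      refine ex_of_zero fun z hz hb => ?_
      refine top0 hCONVB hrk (N := Iv r none y) (D := EvF n (lo rk (none : Option V)) (hi rk y))
        (hTZ none y (fun a ha => by simp at ha) (by simp [lo]) (by rw [hy]; exact ⟨a, rfl⟩))
        (fun v hv => hA hv.1) ?_ ?_ z hz hb
      · intro v hv
        refine Finset.mem_filter.2 ⟨Finset.mem_univ _, hv.2, Nat.zero_le _, ?_⟩
        rw [hy]
        exact hlt v hv.1
      · have h2 := card_EvF n 0 a
        rw [hy]
        change (EvF n 0 (2 * a + 1)).card ≤ i
        rw [Nat.mul_zero] at h2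
        omega
    -- adding the elements of odd rank
    have key : ∀ (k : ℕ) (S : Finset V), S.card = k → (∀ σ ∈ S, σ ∈ A ∧ Odd (rk σ : ℕ)) →
        (∀ σ ∈ S, ∀ v ∈ A, Odd (rk v : ℕ) → rk v < rk σ → v ∈ S) → ∀ i, a + 1 ≤ i →
        EX (W907.SM.cmp r) rk Set.univ τ ({v | v ∈ A ∧ Even (rk v : ℕ)} ∪ (S : Set V)) i := by
      intro k
      induction k with
      | zero =>
        intro S hS _ _ i hi'
        rw [Finset.card_eq_zero.1 hS]
        rw [Finset.coe_empty, Set.union_empty]
        exact h0 i hi'
      | succ k ihk =>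
        intro S hS hSA hdown i hi'
        have hne : S.Nonempty := Finset.card_pos.1 (by omega)
        obtain ⟨σ, hσS, hσmax⟩ := Finset.exists_max_image S rk hne
        obtain ⟨hσA, hσodd⟩ := hSA σ hσS
        obtain ⟨b, hb⟩ := hσodd
        have hσlt := hlt σ hσA
        have hba : b < a := by omega
        obtain ⟨S', hS'⟩ : ∃ S', S' = S.erase σ := ⟨_, rfl⟩
        have hcard : S'.card = k := by
          rw [hS', Finset.card_erase_of_mem hσS, hS]
          rfl
        have hins : ({v | v ∈ A ∧ Even (rk v : ℕ)} ∪ (S : Set V)) =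
            insert σ ({v | v ∈ A ∧ Even (rk v : ℕ)} ∪ (S' : Set V)) := by
          rw [← Set.union_insert, hS', ← Finset.coe_insert, Finset.insert_erase hσS]
        have hσnot : σ ∉ ({v | v ∈ A ∧ Even (rk v : ℕ)} ∪ (S' : Set V)) := by
          rintro (h | h)
          · have h1 := h.2
            rw [Nat.even_iff] at h1
            omega
          · rw [hS'] at h
            exact Finset.notMem_erase _ _ h
        have hIH := ihk S' hcard (fun v hv => hSA v (by
            rw [hS'] at hv
            exact Finset.mem_of_mem_erase hv))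
          (fun v hv w hw hwo hwv => by
            rw [hS'] at hv ⊢
            have h1 := Finset.mem_of_mem_erase hv
            refine Finset.mem_erase.2 ⟨?_, hdown v h1 w hw hwo hwv⟩
            rintro rfl
            exact absurd (hσmax v h1) (not_le.2 hwv))
        rw [hins]
        refine hLADD V (Fin n) K (W907.SM.cmp r) rk Set.univ τ _ σ i hcol hσnot (hIH i hi') ?_
        intro j hj
        -- the link
        obtain ⟨X, hX⟩ : ∃ X : Set V, X = {v | v ∈ A ∧ r v σ} := ⟨_, rfl⟩
        obtain ⟨Y, hY⟩ : ∃ Y : Set V, Y = {v | (v ∈ A ∧ Even (rk v : ℕ)) ∧ r σ v} := ⟨_, rfl⟩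
        have hlink : ({v | v ∈ A ∧ Even (rk v : ℕ)} ∪ (S' : Set V)) ∩ (W907.SM.cmp r).neighborSet σ = X ∪ Y := by
          ext v
          constructor
          · rintro ⟨hv, hadj⟩
            rw [SimpleGraph.mem_neighborSet] at hadj
            have hadj' := adj_iff.1 hadj
            have hvA : v ∈ A := by
              rcases hv with h | h
              · exact h.1
              · rw [hS'] at h
                exact (hSA v (Finset.mem_of_mem_erase h)).1
            rcases hadj'.2 with h | h
            · right
              rw [hY]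
              refine ⟨?_, h⟩
              rcases hv with h' | h'
              · exact h'
              · exfalso
                rw [hS'] at h'
                have h1 := hσmax v (Finset.mem_of_mem_erase h')
                exact absurd (hrk σ v h) (not_lt.2 h1)
            · left
              rw [hX]
              exact ⟨hvA, h⟩
          · rintro (hv | hv)
            · rw [hX] at hv
              have h1 : rk v < rk σ := hrk v σ hv.2
              have h2 : v ≠ σ := by
                rintro rfl
                exact lt_irrefl _ h1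
              refine ⟨?_, ?_⟩
              · rcases Nat.even_or_odd (rk v : ℕ) with h | h
                · left
                  exact ⟨hv.1, h⟩
                · right
                  rw [hS']
                  exact Finset.mem_coe.2 (Finset.mem_erase.2 ⟨h2, hdown σ hσS v hv.1 h h1⟩)
              · rw [SimpleGraph.mem_neighborSet]
                exact adj_iff.2 ⟨h2.symm, Or.inr hv.2⟩
            · rw [hY] at hv
              have h1 : rk σ < rk v := hrk σ v hv.2
              have h2 : σ ≠ v := by
                rintro rfl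
                exact lt_irrefl _ h1
              refine ⟨Or.inl hv.1, ?_⟩
              rw [SimpleGraph.mem_neighborSet]
              exact adj_iff.2 ⟨h2, Or.inl hv.2⟩
        rw [hlink]
        have hYD : ∀ v ∈ Y, rk v ∈ EvF n (2 * (b + 1)) (2 * a + 1) := by
          intro v hv
          rw [hY] at hv
          have h1 : (rk σ : ℕ) < rk v := hrk σ v hv.2
          have h2 := hlt v hv.1.1
          refine Finset.mem_filter.2 ⟨Finset.mem_univ _, hv.1.2, ?_, h2⟩
          omega
        have hcardY := card_EvF n (b + 1) a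
        refine hJT V (Fin n) K (W907.SM.cmp r) rk Set.univ τ X Y (b + 1) (EvF n (2 * (b + 1)) (2 * a + 1)).card hcol
          ?_ ?_ ?_ ?_ j ?_
        · intro x hx y' hy'
          rw [hX] at hx
          rw [hY] at hy'
          have h1 : r x y' := htr x σ y' hx.2 hy'.2
          refine adj_iff.2 ⟨?_, Or.inl h1⟩
          rintro rfl
          exact lt_irrefl _ (hrk _ _ h1)
        · intro p hp
          refine ih b hba (some σ) hb X ?_ p hp
          intro v hv
          rw [hX] at hv
          refine ⟨fun a ha => by simp at ha, fun c hc => ?_⟩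
          simp at hc
          rw [← hc]
          exact hv.2
        · intro T hT hTY
          exact clique_card hrk hYD T hT hTY
        · intro z hz hbz
          have h3 := hTZ (some σ) y (fun c hc c' hc' => by
              simp at hc
              rw [← hc]
              exact (hA hσA).2 c' hc') (by
              change Even ((rk σ : ℕ) + 1)
              rw [hb]
              exact ⟨b + 1, by ring⟩) (by rw [hy]; exact ⟨a, rfl⟩)
          have h4 : lo rk (some σ) = 2 * (b + 1) := by
            change (rk σ : ℕ) + 1 = 2 * (b + 1)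
            rw [hb]
            ring
          rw [h4, hy] at h3
          refine top0 hCONVB hrk (N := Iv r (some σ) y) h3 ?_ hYD le_rfl z hz hbz
          intro v hv
          rw [hY] at hv
          refine ⟨fun c hc => ?_, (hA hv.1.1).2⟩
          simp at hc
          rw [← hc]
          exact hv.2
        · omega
    intro i hi'
    have hfin := key _ (Finset.univ.filter fun v => v ∈ A ∧ Odd (rk v : ℕ)) rfl
      (fun σ hσ => (Finset.mem_filter.1 hσ).2)
      (fun σ _ v hv hvo _ => Finset.mem_filter.2 ⟨Finset.mem_univ _, hv, hvo⟩) i hi'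
    have hAeq : ({v | v ∈ A ∧ Even (rk v : ℕ)} ∪
        ((Finset.univ.filter fun v => v ∈ A ∧ Odd (rk v : ℕ) : Finset V) : Set V)) = A := by
      ext v
      simp only [Set.mem_union, Set.mem_ofPred_eq, Finset.coe_filter, Finset.mem_univ, true_and]
      constructor
      · rintro (h | h)
        · exact h.1
        · exact h.1
      · intro h
        rcases Nat.even_or_odd (rk v : ℕ) with h1 | h1
        · exact Or.inl ⟨h, h1⟩
        · exact Or.inr ⟨h, h1⟩
    rwa [hAeq] at hfin

end

theorem abv (hJT : B_JT) (hLADD : M_LADD) (hCONVB : M_CONVB) : B_ABV := by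
  intro n V K _ _ _ _ r rk τ htr hrk hTZ j hn A i hi'
  exact main hJT hLADD hCONVB htr hrk hTZ j none hn A
    (fun v _ => ⟨fun a ha => by simp at ha, fun a ha => by simp at ha⟩) i hi'

end Pool.Agent.W816.SM
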